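import Mathlib

/-!
# Prime gaps at the points `n ^ 2 - n`, `n ^ 2`, `n ^ 2 + n`

If both `(c - y, c]` and `(c, c + y]` contain primes, the gap at `c` is short, on the scale of square roots.
-/

set_option autoImplicit false

namespace Pool.Agent.Work.MP_af97f8_nt.SquareGaps

/-- a positive relative frequency gives an element -/
theorem exists_of_ratio (A : Set ℕ) (t : ℝ)
    (h : |(Set.ncard A : ℝ) / t - 1| < 1 / 2) : ∃ r, r ∈ A := by
  by_contra hne
  have hA : A = ∅ := by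
    ext x
    constructor
    · intro hx
      exact absurd ⟨x, hx⟩ hne
    · intro hx
      exact absurd hx (Set.notMem_empty x)
  rw [hA, Set.ncard_empty, Nat.cast_zero, zero_div, zero_sub, abs_neg, abs_one] at h
  norm_num at h

/-- the gap at `c` -/
theorem gap (n c : ℕ) (θ : ℝ) (hθ : θ ≤ 1) (hn : 3 ≤ n)
    (hc : c = n ^ 2 - n ∨ c = n ^ 2 ∨ c = n ^ 2 + n)
    (h1 : ∃ r : ℕ, r.Prime ∧ (c : ℝ) < r ∧ (r : ℝ) ≤ c + (n : ℝ) ^ θ)
    (h2 : ∃ r : ℕ, r.Prime ∧ (c : ℝ) - (n : ℝ) ^ θ < r ∧ (r : ℝ) ≤ c)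
    (p q : ℕ) (hpc : p ≤ c) (hcq : c < q) (hpq : ∀ r : ℕ, p < r → r < q → ¬ r.Prime) :
    Real.sqrt q - Real.sqrt p ≤ 2 * (n : ℝ) ^ (θ - 1) := by
  obtain ⟨r, hr, hr1, hr2⟩ := h1
  obtain ⟨s, hs, hs1, hs2⟩ := h2
  have hn3 : (3 : ℝ) ≤ n := by exact_mod_cast hn
  have hn0 : (0 : ℝ) < n := by linarith
  have hr1' : c < r := by exact_mod_cast hr1
  have hs2' : s ≤ c := by exact_mod_cast hs2
  have hqr : q ≤ r := by
    by_contra hlt
    exact hpq r (lt_of_le_of_lt hpc hr1') (not_le.1 hlt) hr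
  have hsp : s ≤ p := by
    by_contra hlt
    exact hpq s (not_le.1 hlt) (lt_of_le_of_lt hs2' hcq) hs
  have hqr' : (q : ℝ) ≤ r := by exact_mod_cast hqr
  have hsp' : (s : ℝ) ≤ p := by exact_mod_cast hsp
  have hpq' : (p : ℝ) < q := by exact_mod_cast lt_of_le_of_lt hpc hcq
  set y : ℝ := (n : ℝ) ^ θ with hy
  have hyn : y ≤ n := by
    calc y ≤ (n : ℝ) ^ (1 : ℝ) := Real.rpow_le_rpow_of_exponent_le (by linarith) hθ
      _ = n := Real.rpow_one _
  have hcl : (n : ℝ) ^ 2 - n ≤ c := by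
    have hle : n ≤ n ^ 2 := by nlinarith
    rcases hc with h | h | h
    · rw [h, Nat.cast_sub hle, Nat.cast_pow]
    · rw [h, Nat.cast_pow]
      linarith
    · rw [h, Nat.cast_add, Nat.cast_pow]
      linarith
  have hp : ((n : ℝ) / 2) ^ 2 ≤ p := by nlinarith
  have hsp1 : (n : ℝ) / 2 ≤ Real.sqrt p := Real.le_sqrt_of_sq_le hp
  have hsq1 : (n : ℝ) / 2 ≤ Real.sqrt q := Real.le_sqrt_of_sq_le (hp.trans hpq'.le)
  have hsum : (n : ℝ) ≤ Real.sqrt q + Real.sqrt p := by linarith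
  have hmul : (Real.sqrt q - Real.sqrt p) * (Real.sqrt q + Real.sqrt p) = q - p := by
    have e1 := Real.mul_self_sqrt (Nat.cast_nonneg (α := ℝ) q)
    have e2 := Real.mul_self_sqrt (Nat.cast_nonneg (α := ℝ) p)
    linear_combination e1 - e2
  have hdiff : 0 ≤ Real.sqrt q - Real.sqrt p := sub_nonneg.2 (Real.sqrt_le_sqrt hpq'.le)
  have hle : (Real.sqrt q - Real.sqrt p) * n ≤ 2 * y := by
    have h3 : (Real.sqrt q - Real.sqrt p) * n ≤
        (Real.sqrt q - Real.sqrt p) * (Real.sqrt q + Real.sqrt p) :=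
      mul_le_mul_of_nonneg_left hsum hdiff
    rw [hmul] at h3
    linarith
  have hpow : (n : ℝ) ^ (θ - 1) = y / n := by
    rw [Real.rpow_sub hn0, Real.rpow_one]
  rw [hpow]
  have : 2 * (y / (n : ℝ)) = (2 * y) / n := by ring
  rw [this, le_div_iff₀ hn0]
  exact hle

end Pool.Agent.Work.MP_af97f8_nt.SquareGaps
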